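import Pool.Agent.helper72.ODK.Spec

set_option autoImplicit false

namespace Pool.Agent.helper72.UP

open Finset

theorem CTW_inj {α : Type} [DecidableEq α] (A B S T S' T' : Finset α) (hAB : Disjoint A B)
    (hS : S ⊆ A) (hT : T ⊆ B) (hS' : S' ⊆ A) (hT' : T' ⊆ B) (h : S ∪ T = S' ∪ T') : S = S' ∧ T = T' := by
  have key : ∀ P Q P' Q' : Finset α, P ⊆ A → Q ⊆ B → P' ⊆ A → Q' ⊆ B → P ∪ Q = P' ∪ Q' → P ⊆ P' ∧ Q ⊆ Q' := by
    intro P Q P' Q' h1 h2 h3 h4 h5
    refine ⟨fun u hu => ?_, fun u hu => ?_⟩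
    · have : u ∈ P' ∪ Q' := h5 ▸ mem_union_left _ hu
      rcases mem_union.1 this with h | h
      · exact h
      · exact absurd (h4 h) (Finset.disjoint_left.1 hAB (h1 hu))
    · have : u ∈ P' ∪ Q' := h5 ▸ mem_union_right _ hu
      rcases mem_union.1 this with h | h
      · exact absurd (h2 hu) (Finset.disjoint_left.1 hAB (h3 h))
      · exact h
  have a1 := key S T S' T' hS hT hS' hT' h
  have a2 := key S' T' S T hS' hT' hS hT h.symm
  exact ⟨Subset.antisymm a1.1 a2.1, Subset.antisymm a1.2 a2.2⟩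

theorem CTW : CTW_stmt := by
  classical
  intro n K hn
  obtain ⟨z, hz⟩ : ∃ z : Fin n, z = ⟨0, hn⟩ := ⟨_, rfl⟩
  have hcard : #(univ.erase z) = n - 1 := by
    rw [card_erase_of_mem (mem_univ z), card_univ, Fintype.card_fin]
  obtain ⟨A, hA, hAc⟩ := Finset.exists_subset_card_eq (s := univ.erase z) (n := (n - 1) / 2)
    (by rw [hcard]; omega)
  obtain ⟨B, hB⟩ : ∃ B, B = (univ.erase z) \ A := ⟨_, rfl⟩
  have hBc : #(B) = n / 2 := by
    rw [hB, card_sdiff_of_subset hA, hcard, hAc]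
    omega
  have hAB : Disjoint A B := by
    rw [hB]
    exact disjoint_sdiff
  have hzA : z ∉ A := fun h => (mem_erase.1 (hA h)).1 rfl
  have hzB : z ∉ B := by
    rw [hB]
    exact fun h => (mem_erase.1 (mem_sdiff.1 h).1).1 rfl
  obtain ⟨x, hx⟩ : ∃ x : Fin n → ℝ, x = fun i => if i ∈ A then 1 else if i ∈ B then -1 else 2 := ⟨_, rfl⟩
  have xA : ∀ i ∈ A, x i = 1 := fun i hi => by rw [hx]; exact if_pos hi
  have xB : ∀ i ∈ B, x i = -1 := fun i hi => by
    rw [hx]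
    have : i ∉ A := fun h => Finset.disjoint_left.1 hAB h hi
    simp only [if_neg this, if_pos hi]
  have xz : x z = 2 := by
    rw [hx]
    simp only [if_neg hzA, if_neg hzB]
  have hsum : ∀ S T : Finset (Fin n), S ⊆ A → T ⊆ B → ∑ i ∈ S ∪ T, x i = (#(S) : ℝ) - #(T) := by
    intro S T hS hT
    have hd : Disjoint S T := disjoint_of_subset_left hS (disjoint_of_subset_right hT hAB)
    rw [sum_union hd, sum_congr rfl (fun i hi => xA i (hS hi)), sum_congr rfl (fun i hi => xB i (hT hi)),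
      sum_const, sum_const]
    simp
    ring
  refine ⟨x, ?_, ?_⟩
  · intro i
    rw [hx]
    dsimp only
    split_ifs <;> norm_num
  · obtain ⟨D1, hD1⟩ : ∃ D1 : Finset (Σ _ : ℕ, Finset (Fin n) × Finset (Fin n)),
        D1 = (Icc 1 K).sigma (fun i => powersetCard i A ×ˢ powersetCard i B) := ⟨_, rfl⟩
    obtain ⟨D2, hD2⟩ : ∃ D2 : Finset (Σ _ : ℕ, Finset (Fin n) × Finset (Fin n)),
        D2 = (range K).sigma (fun i => powersetCard i A ×ˢ powersetCard (i + 2) B) := ⟨_, rfl⟩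
    have c1 : #(D1) = ∑ i ∈ Icc 1 K, ((n - 1) / 2).choose i * (n / 2).choose i := by
      rw [hD1, card_sigma]
      apply sum_congr rfl
      intro i _
      rw [card_product, card_powersetCard, card_powersetCard, hAc, hBc]
    have c2 : #(D2) = ∑ i ∈ range K, ((n - 1) / 2).choose i * (n / 2).choose (i + 2) := by
      rw [hD2, card_sigma]
      apply sum_congr rfl
      intro i _
      rw [card_product, card_powersetCard, card_powersetCard, hAc, hBc]
    have m1 : ∀ p ∈ D1, (1 ≤ p.1 ∧ p.1 ≤ K) ∧ (p.2.1 ⊆ A ∧ #(p.2.1) = p.1) ∧ (p.2.2 ⊆ B ∧ #(p.2.2) = p.1) := by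
      rintro ⟨i, S, T⟩ hp
      rw [hD1, mem_sigma, mem_Icc, mem_product, mem_powersetCard, mem_powersetCard] at hp
      exact ⟨hp.1, hp.2.1, hp.2.2⟩
    have m2 : ∀ p ∈ D2, p.1 < K ∧ (p.2.1 ⊆ A ∧ #(p.2.1) = p.1) ∧ (p.2.2 ⊆ B ∧ #(p.2.2) = p.1 + 2) := by
      rintro ⟨i, S, T⟩ hp
      rw [hD2, mem_sigma, mem_range, mem_product, mem_powersetCard, mem_powersetCard] at hp
      exact ⟨hp.1, hp.2.1, hp.2.2⟩
    have i1 : #(D1.image (fun p => p.2.1 ∪ p.2.2)) = #(D1) := by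
      apply card_image_of_injOn
      rintro ⟨i, S, T⟩ hp ⟨i', S', T'⟩ hp' h
      have g := m1 _ (Finset.mem_coe.1 hp)
      have g' := m1 _ (Finset.mem_coe.1 hp')
      obtain ⟨_, ⟨g1, g2⟩, g3, _⟩ := g
      obtain ⟨_, ⟨g1', g2'⟩, g3', _⟩ := g'
      obtain ⟨e1, e2⟩ := CTW_inj A B S T S' T' hAB g1 g3 g1' g3' h
      subst e1 e2
      have e3 : i = i' := g2.symm.trans g2'
      subst e3
      rfl
    have hzST : ∀ S T : Finset (Fin n), S ⊆ A → T ⊆ B → z ∉ S ∪ T := by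
      intro S T hS hT h
      rcases mem_union.1 h with h | h
      · exact hzA (hS h)
      · exact hzB (hT h)
    have i2 : #(D2.image (fun p => insert z (p.2.1 ∪ p.2.2))) = #(D2) := by
      apply card_image_of_injOn
      rintro ⟨i, S, T⟩ hp ⟨i', S', T'⟩ hp' h
      have g := m2 _ (Finset.mem_coe.1 hp)
      have g' := m2 _ (Finset.mem_coe.1 hp')
      obtain ⟨_, ⟨g1, g2⟩, g3, _⟩ := g
      obtain ⟨_, ⟨g1', g2'⟩, g3', _⟩ := g'
      have h' : S ∪ T = S' ∪ T' := by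
        have h1 := congrArg (fun s => s.erase z) h
        dsimp only at h1
        rwa [erase_insert (hzST S T g1 g3), erase_insert (hzST S' T' g1' g3')] at h1
      obtain ⟨e1, e2⟩ := CTW_inj A B S T S' T' hAB g1 g3 g1' g3' h'
      subst e1 e2
      have e3 : i = i' := g2.symm.trans g2'
      subst e3
      rfl
    have hdis : Disjoint (D1.image (fun p => p.2.1 ∪ p.2.2)) (D2.image (fun p => insert z (p.2.1 ∪ p.2.2))) := by
      rw [Finset.disjoint_left]
      intro s hs hs'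
      obtain ⟨p, hp, rfl⟩ := mem_image.1 hs
      obtain ⟨p', hp', h⟩ := mem_image.1 hs'
      obtain ⟨_, ⟨g1, _⟩, g3, _⟩ := m1 p hp
      exact hzST _ _ g1 g3 (h ▸ mem_insert_self z _)
    unfold WW zer
    rw [← c1, ← c2, ← i1, ← i2, ← card_union_of_disjoint hdis]
    apply card_le_card
    intro s hs
    refine (@mem_filter _ _ (_) _ _).2 ⟨mem_univ _, ?_⟩
    rcases mem_union.1 hs with hs | hs
    · obtain ⟨p, hp, rfl⟩ := mem_image.1 hs
      obtain ⟨⟨k1, k2⟩, ⟨g1, g2⟩, g3, g4⟩ := m1 p hp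
      have hd : Disjoint p.2.1 p.2.2 := disjoint_of_subset_left g1 (disjoint_of_subset_right g3 hAB)
      have hc : #(p.2.1 ∪ p.2.2) = p.1 + p.1 := by
        rw [card_union_of_disjoint hd, g2, g4]
      refine ⟨card_pos.1 (by rw [hc]; omega), by rw [hc]; omega, ?_⟩
      rw [hsum _ _ g1 g3, g2, g4, sub_self]
    · obtain ⟨p, hp, rfl⟩ := mem_image.1 hs
      obtain ⟨k1, ⟨g1, g2⟩, g3, g4⟩ := m2 p hp
      have hd : Disjoint p.2.1 p.2.2 := disjoint_of_subset_left g1 (disjoint_of_subset_right g3 hAB)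
      have hnz := hzST _ _ g1 g3
      have hc : #(insert z (p.2.1 ∪ p.2.2)) = p.1 + (p.1 + 2) + 1 := by
        rw [card_insert_of_notMem hnz, card_union_of_disjoint hd, g2, g4]
      refine ⟨⟨z, mem_insert_self _ _⟩, by rw [hc]; omega, ?_⟩
      rw [sum_insert hnz, hsum _ _ g1 g3, g2, g4, xz]
      push_cast
      ring

end Pool.Agent.helper72.UP
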